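import Pool.Agent.Helper85.QT.St3

/-!
# Project QT, module HLI: holomorphic integrable functions on a strip
-/

set_option autoImplicit false

open MeasureTheory Matrix Set Topology Filter
open scoped ENNReal ComplexConjugate

namespace Pool.Agent.Helper74.QT

open Pool.Agent.Helper85.QT Pool.Agent.Helper86.QA

private theorem inner_mv {G : ℂ → ℂ} {U : Set ℂ} (hG : DifferentiableOn ℂ G U) (c : ℂ) (ρ : ℝ)
    (hρ : 0 < ρ) (hsub : Metric.closedBall c ρ ⊆ U) :
    ∫ θ in Ioo (-Real.pi) Real.pi, G (circleMap c ρ θ) = (2 * Real.pi) • G c := by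
  have hd : DiffContOnCl ℂ G (Metric.ball c |ρ|) := by
    rw [abs_of_pos hρ]
    refine ⟨hG.mono (Metric.ball_subset_closedBall.trans hsub), ?_⟩
    rw [closure_ball c hρ.ne']
    exact hG.continuousOn.mono hsub
  have h1 := hd.circleAverage
  rw [Real.circleAverage] at h1
  have h2 : ∫ θ in (0 : ℝ)..2 * Real.pi, G (circleMap c ρ θ) = (2 * Real.pi) • G c := by
    rw [← h1, smul_smul, mul_inv_cancel₀ (by positivity), one_smul]
  have t₀ : (fun θ => G (circleMap c ρ θ)).Periodic (2 * Real.pi) :=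
    fun x => by simp [periodic_circleMap c ρ x]
  have h3 := t₀.intervalIntegral_add_eq (-Real.pi) 0
  rw [zero_add, h2, show -Real.pi + 2 * Real.pi = Real.pi by ring] at h3
  rw [← h3, intervalIntegral.integral_of_le (by linarith [Real.pi_pos]),
    integral_Ioc_eq_integral_Ioo]

private theorem area_mv {G : ℂ → ℂ} {U : Set ℂ} (hG : DifferentiableOn ℂ G U) (c : ℂ) (r : ℝ)
    (hr : 0 < r) (hsub : Metric.closedBall c r ⊆ U) :
    ∫ ζ in Metric.ball c r, G ζ = (Real.pi * r ^ 2) • G c := by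
  have h1 : ∫ ζ in Metric.ball c r, G ζ =
      ∫ z, (Metric.ball (0 : ℂ) r).indicator (fun z => G (c + z)) z := by
    rw [← integral_indicator Metric.isOpen_ball.measurableSet, ← integral_add_left_eq_self _ c]
    congr 1
    ext z
    by_cases hz : z ∈ Metric.ball (0 : ℂ) r
    · rw [indicator_of_mem hz, indicator_of_mem]
      simpa [Metric.mem_ball, dist_eq_norm] using hz
    · rw [indicator_of_notMem hz, indicator_of_notMem]
      simpa [Metric.mem_ball, dist_eq_norm] using hz
  have hcm : ∀ p : ℝ × ℝ, c + Complex.polarCoord.symm p = circleMap c p.1 p.2 := by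
    intro p
    rw [Complex.polarCoord_symm_apply, circleMap, Complex.exp_mul_I]
    push_cast
    ring
  have h2 : ∫ z, (Metric.ball (0 : ℂ) r).indicator (fun z => G (c + z)) z =
      ∫ p in Ioo (0 : ℝ) r ×ˢ Ioo (-Real.pi) Real.pi, p.1 • G (circleMap c p.1 p.2) := by
    rw [← Complex.integral_comp_polarCoord_symm,
      ← integral_indicator polarCoord.open_target.measurableSet,
      ← integral_indicator (measurableSet_Ioo.prod measurableSet_Ioo)]
    congr 1
    ext p
    by_cases hp : p ∈ polarCoord.target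
    · have hp' : 0 < p.1 ∧ p.2 ∈ Ioo (-Real.pi) Real.pi := by
        simpa [polarCoord] using hp
      rw [indicator_of_mem hp]
      by_cases hpr : p.1 < r
      · rw [indicator_of_mem, indicator_of_mem, hcm]
        · exact ⟨⟨hp'.1, hpr⟩, hp'.2⟩
        · rw [mem_ball_zero_iff, Complex.norm_polarCoord_symm, abs_of_pos hp'.1]
          exact hpr
      · rw [indicator_of_notMem, indicator_of_notMem, smul_zero]
        · exact fun h => hpr h.1.2
        · rw [mem_ball_zero_iff, Complex.norm_polarCoord_symm, abs_of_pos hp'.1]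
          exact hpr
    · rw [indicator_of_notMem hp, indicator_of_notMem]
      intro h
      apply hp
      have : 0 < p.1 ∧ p.2 ∈ Ioo (-Real.pi) Real.pi := ⟨h.1.1, h.2⟩
      simpa [polarCoord] using this
  have hmem : ∀ p ∈ Icc (0 : ℝ) r ×ˢ Icc (-Real.pi) Real.pi, circleMap c p.1 p.2 ∈ U := by
    intro p hp
    apply hsub
    rw [Metric.mem_closedBall, dist_eq_norm, circleMap, add_sub_cancel_left]
    have h0 : ‖(p.1 : ℂ) * Complex.exp (p.2 * Complex.I)‖ = p.1 := by
      rw [norm_mul, Complex.norm_exp_ofReal_mul_I, mul_one, Complex.norm_real, Real.norm_eq_abs,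
        abs_of_nonneg hp.1.1]
    rw [h0]
    exact hp.1.2
  have hcont : ContinuousOn (fun p : ℝ × ℝ => p.1 • G (circleMap c p.1 p.2))
      (Icc (0 : ℝ) r ×ˢ Icc (-Real.pi) Real.pi) := by
    refine continuousOn_fst.smul (hG.continuousOn.comp ?_ hmem)
    unfold circleMap
    fun_prop
  have hint : IntegrableOn (fun p : ℝ × ℝ => p.1 • G (circleMap c p.1 p.2))
      (Ioo (0 : ℝ) r ×ˢ Ioo (-Real.pi) Real.pi) :=
    (hcont.integrableOn_compact (isCompact_Icc.prod isCompact_Icc)).mono_set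
      (prod_mono Ioo_subset_Icc_self Ioo_subset_Icc_self)
  rw [h1, h2, Measure.volume_eq_prod,
    setIntegral_prod _ (by rw [← Measure.volume_eq_prod]; exact hint)]
  have h3 : ∫ x in Ioo (0 : ℝ) r, ∫ y in Ioo (-Real.pi) Real.pi, x • G (circleMap c x y) =
      ∫ x in Ioo (0 : ℝ) r, x • ((2 * Real.pi) • G c) := by
    refine setIntegral_congr_fun measurableSet_Ioo fun x hx => ?_
    rw [integral_smul, inner_mv hG c x hx.1
      ((Metric.closedBall_subset_closedBall hx.2.le).trans hsub)]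
  simp only at h3 ⊢
  rw [h3, integral_smul_const, ← integral_Ioc_eq_integral_Ioo,
    ← intervalIntegral.integral_of_le hr.le, integral_id, smul_smul]
  congr 1
  ring

private theorem meas_Sab (a b : ℝ) : MeasurableSet (Sab a b) :=
  (measurableSet_lt measurable_const Complex.measurable_im).inter
    (measurableSet_lt Complex.measurable_im measurable_const)

private theorem ball_sub {x y r m : ℝ} (h1 : r < y) (h2 : y + r < m) :
    Metric.closedBall ((x : ℂ) + y * Complex.I) r ⊆ Sm m := by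
  intro z hz
  rw [Metric.mem_closedBall, dist_eq_norm] at hz
  have h3 := (Complex.abs_im_le_norm (z - ((x : ℂ) + y * Complex.I))).trans hz
  have h4 : (z - ((x : ℂ) + y * Complex.I)).im = z.im - y := by simp
  rw [h4, abs_le] at h3
  exact ⟨by linarith [h3.1], by linarith [h3.2]⟩

/-- pointwise bound -/
private theorem ptw {m : ℝ} {h : ℂ → ℂ} (hh : DifferentiableOn ℂ h (Sm m)) {x y r : ℝ}
    (hr : 0 < r) (h1 : r < y) (h2 : y + r < m) :
    ENNReal.ofReal (Real.pi * r ^ 2) * ‖h ((x : ℂ) + y * Complex.I)‖ₑ ≤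
      ∫⁻ z in Sab (y - r) (y + r), {z : ℂ | |z.re - x| < r}.indicator (fun z => ‖h z‖ₑ) z := by
  have e := area_mv hh ((x : ℂ) + y * Complex.I) r hr (ball_sub h1 h2)
  have h3 := enorm_integral_le_lintegral_enorm (μ := volume.restrict
    (Metric.ball ((x : ℂ) + y * Complex.I) r)) h
  rw [e, enorm_smul, Real.enorm_of_nonneg (by positivity)] at h3
  refine h3.trans ?_
  rw [← lintegral_indicator Metric.isOpen_ball.measurableSet, ← lintegral_indicator (meas_Sab _ _)]
  refine lintegral_mono fun z => ?_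
  by_cases hz : z ∈ Metric.ball ((x : ℂ) + y * Complex.I) r
  · have h5 : ‖z - ((x : ℂ) + y * Complex.I)‖ < r := by rwa [Metric.mem_ball, dist_eq_norm] at hz
    have h6 := (Complex.abs_im_le_norm (z - ((x : ℂ) + y * Complex.I))).trans_lt h5
    have h7 := (Complex.abs_re_le_norm (z - ((x : ℂ) + y * Complex.I))).trans_lt h5
    have h8 : (z - ((x : ℂ) + y * Complex.I)).im = z.im - y := by simp
    have h9 : (z - ((x : ℂ) + y * Complex.I)).re = z.re - x := by simp
    rw [h8, abs_lt] at h6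
    rw [h9] at h7
    have m1 : z ∈ Sab (y - r) (y + r) := ⟨by linarith [h6.1], by linarith [h6.2]⟩
    rw [indicator_of_mem hz, indicator_of_mem m1]
    rw [indicator_of_mem (show z ∈ {z : ℂ | |z.re - x| < r} from h7)]
  · rw [indicator_of_notMem hz]
    exact zero_le

private theorem meas_ind {m : ℝ} {h : ℂ → ℂ} (hh : DifferentiableOn ℂ h (Sm m)) :
    Measurable ((Sm m).indicator h) := by
  classical
  rw [← Set.piecewise_eq_indicator]
  exact hh.continuousOn.measurable_piecewise continuousOn_const (meas_Sab 0 m)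

/-- the bound on horizontal lines -/
private theorem line {m : ℝ} {h : ℂ → ℂ} (hh : DifferentiableOn ℂ h (Sm m)) {y r : ℝ}
    (hr : 0 < r) (h1 : r < y) (h2 : y + r < m) :
    ENNReal.ofReal (Real.pi * r ^ 2) * ∫⁻ x : ℝ, ‖h ((x : ℂ) + y * Complex.I)‖ₑ ≤
      ENNReal.ofReal (2 * r) * ∫⁻ z in Sab (y - r) (y + r), ‖h z‖ₑ := by
  have hm := meas_ind hh
  have hN : Measurable fun z => ‖(Sm m).indicator h z‖ₑ := hm.enorm
  have hS : ∀ z ∈ Sab (y - r) (y + r), (Sm m).indicator h z = h z := by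
    intro z hz
    exact indicator_of_mem (show z ∈ Sm m from ⟨by linarith [hz.1], by linarith [hz.2]⟩) h
  have hF : Measurable (Function.uncurry fun (x : ℝ) (z : ℂ) =>
      {z : ℂ | |z.re - x| < r}.indicator (fun z => ‖(Sm m).indicator h z‖ₑ) z) := by
    have e : (Function.uncurry fun (x : ℝ) (z : ℂ) =>
        {z : ℂ | |z.re - x| < r}.indicator (fun z => ‖(Sm m).indicator h z‖ₑ) z) =
        {p : ℝ × ℂ | |p.2.re - p.1| < r}.indicator
          (fun p : ℝ × ℂ => ‖(Sm m).indicator h p.2‖ₑ) := by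
      ext p
      rfl
    rw [e]
    refine (hN.comp measurable_snd).indicator ?_
    refine measurableSet_lt ?_ measurable_const
    exact (((Complex.measurable_re.comp measurable_snd).sub measurable_fst).abs)
  rw [← lintegral_const_mul' _ _ ENNReal.ofReal_ne_top,
    ← lintegral_const_mul' _ _ ENNReal.ofReal_ne_top]
  calc ∫⁻ x : ℝ, ENNReal.ofReal (Real.pi * r ^ 2) * ‖h ((x : ℂ) + y * Complex.I)‖ₑ
      ≤ ∫⁻ x : ℝ, ∫⁻ z in Sab (y - r) (y + r),
        {z : ℂ | |z.re - x| < r}.indicator (fun z => ‖(Sm m).indicator h z‖ₑ) z := by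
        refine lintegral_mono fun x => (ptw hh hr h1 h2).trans ?_
        refine (setLIntegral_congr_fun (meas_Sab _ _) fun z hz => ?_).le
        by_cases hz' : |z.re - x| < r
        · rw [indicator_of_mem (show z ∈ {z : ℂ | |z.re - x| < r} from hz'),
            indicator_of_mem (show z ∈ {z : ℂ | |z.re - x| < r} from hz'), hS z hz]
        · rw [indicator_of_notMem (show z ∉ {z : ℂ | |z.re - x| < r} from hz'),
            indicator_of_notMem (show z ∉ {z : ℂ | |z.re - x| < r} from hz')]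
    _ = ∫⁻ z in Sab (y - r) (y + r), ∫⁻ x : ℝ,
        {z : ℂ | |z.re - x| < r}.indicator (fun z => ‖(Sm m).indicator h z‖ₑ) z :=
        lintegral_lintegral_swap hF.aemeasurable
    _ = ∫⁻ z in Sab (y - r) (y + r), ENNReal.ofReal (2 * r) * ‖h z‖ₑ := by
        refine setLIntegral_congr_fun (meas_Sab _ _) fun z hz => ?_
        have e : (fun x : ℝ => {z : ℂ | |z.re - x| < r}.indicator
            (fun z => ‖(Sm m).indicator h z‖ₑ) z) =
            (Metric.ball z.re r).indicator fun _ => ‖h z‖ₑ := by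
          ext x
          by_cases hz' : |z.re - x| < r
          · rw [indicator_of_mem (show z ∈ {z : ℂ | |z.re - x| < r} from hz'),
              indicator_of_mem (show x ∈ Metric.ball z.re r by
                rw [Metric.mem_ball, dist_comm, Real.dist_eq]; exact hz'), hS z hz]
          · rw [indicator_of_notMem (show z ∉ {z : ℂ | |z.re - x| < r} from hz'),
              indicator_of_notMem (show x ∉ Metric.ball z.re r by
                rw [Metric.mem_ball, dist_comm, Real.dist_eq]; exact hz')]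
        rw [e, lintegral_indicator Metric.isOpen_ball.measurableSet, setLIntegral_const,
          Real.volume_ball, mul_comm]

/-- integrability on horizontal lines -/
private theorem line_int {m : ℝ} {h : ℂ → ℂ} (hh : DifferentiableOn ℂ h (Sm m))
    (hi : IntegrableOn h (Sm m)) {y : ℝ} (h1 : 0 < y) (h2 : y < m) :
    Integrable (fun x : ℝ => h ((x : ℂ) + y * Complex.I)) := by
  obtain ⟨r, hr, hr1, hr2⟩ : ∃ r, 0 < r ∧ r < y ∧ y + r < m :=
    ⟨min y (m - y) / 2, by
      have : 0 < min y (m - y) := lt_min h1 (by linarith)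
      linarith, by
      have : min y (m - y) ≤ y := min_le_left _ _
      linarith, by
      have : min y (m - y) ≤ m - y := min_le_right _ _
      linarith⟩
  refine ⟨?_, ?_⟩
  · have hc : Continuous fun x : ℝ => h ((x : ℂ) + y * Complex.I) := by
      rw [← continuousOn_univ]
      refine hh.continuousOn.comp (by fun_prop) fun x _ => ?_
      constructor <;> simpa
    exact hc.aestronglyMeasurable
  · have h3 := line hh hr hr1 hr2
    have h4 : ∫⁻ z in Sab (y - r) (y + r), ‖h z‖ₑ < ∞ := by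
      refine lt_of_le_of_lt (lintegral_mono_set ?_) hi.2
      intro z hz
      exact ⟨by linarith [hz.1], by linarith [hz.2]⟩
    have h5 : ENNReal.ofReal (Real.pi * r ^ 2) *
        ∫⁻ x : ℝ, ‖h ((x : ℂ) + y * Complex.I)‖ₑ < ∞ :=
      h3.trans_lt (ENNReal.mul_lt_top ENNReal.ofReal_lt_top h4)
    by_contra h6
    have h7 : ∫⁻ x : ℝ, ‖h ((x : ℂ) + y * Complex.I)‖ₑ = ∞ := by
      by_contra h8
      exact h6 (lt_top_iff_ne_top.2 h8)
    rw [h7, ENNReal.mul_top] at h5
    · exact lt_irrefl _ h5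
    · rw [Ne, ENNReal.ofReal_eq_zero, not_le]
      positivity

/-- decay at infinity -/
private theorem decay {m : ℝ} {h : ℂ → ℂ} (hh : DifferentiableOn ℂ h (Sm m))
    (hi : IntegrableOn h (Sm m)) {y₁ y₂ : ℝ} (h1 : 0 < y₁) (h2 : y₂ < m) {ε : ℝ} (hε : 0 < ε) :
    ∃ X₀ : ℝ, ∀ x y : ℝ, X₀ ≤ |x| → y₁ ≤ y → y ≤ y₂ → ‖h ((x : ℂ) + y * Complex.I)‖ ≤ ε := by
  obtain ⟨r, hr, hr1, hr2⟩ : ∃ r, 0 < r ∧ r < y₁ ∧ y₂ + r < m :=
    ⟨min y₁ (m - y₂) / 2, by
      have : 0 < min y₁ (m - y₂) := lt_min h1 (by linarith)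
      linarith, by
      have : min y₁ (m - y₂) ≤ y₁ := min_le_left _ _
      linarith, by
      have : min y₁ (m - y₂) ≤ m - y₂ := min_le_right _ _
      linarith⟩
  have hN : Measurable fun z => ‖(Sm m).indicator h z‖ₑ := (meas_ind hh).enorm
  have hfin : ∫⁻ z, ‖(Sm m).indicator h z‖ₑ ≠ ∞ := by
    have e : (fun z => ‖(Sm m).indicator h z‖ₑ) = (Sm m).indicator fun z => ‖h z‖ₑ := by
      ext z
      by_cases hz : z ∈ Sm m
      · rw [indicator_of_mem hz, indicator_of_mem hz]
      · rw [indicator_of_notMem hz, indicator_of_notMem hz, enorm_zero]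
    rw [e, lintegral_indicator (show MeasurableSet (Sm m) from meas_Sab 0 m)]
    exact hi.2.ne
  have hms : ∀ n : ℕ, MeasurableSet {z : ℂ | (n : ℝ) < |z.re|} := fun n =>
    measurableSet_lt measurable_const Complex.measurable_re.abs
  have ht : Tendsto (fun n : ℕ => ∫⁻ z, {z : ℂ | (n : ℝ) < |z.re|}.indicator
      (fun z => ‖(Sm m).indicator h z‖ₑ) z) atTop (𝓝 (∫⁻ _ : ℂ, 0)) := by
    refine tendsto_lintegral_of_dominated_convergence _ (fun n => hN.indicator (hms n))
      (fun n => Eventually.of_forall fun z => indicator_le_self _ _ _) hfin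
      (Eventually.of_forall fun z => ?_)
    refine tendsto_const_nhds.congr' ?_
    obtain ⟨N, hN'⟩ := exists_nat_ge |z.re|
    filter_upwards [eventually_ge_atTop N] with n hn
    rw [indicator_of_notMem]
    change ¬ ((n : ℝ) < |z.re|)
    have : (N : ℝ) ≤ n := by exact_mod_cast hn
    linarith
  rw [lintegral_zero] at ht
  have hpos : 0 < ENNReal.ofReal (Real.pi * r ^ 2) * ENNReal.ofReal ε :=
    ENNReal.mul_pos (by rw [Ne, ENNReal.ofReal_eq_zero, not_le]; positivity)
      (by rw [Ne, ENNReal.ofReal_eq_zero, not_le]; exact hε)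
  obtain ⟨n, hn⟩ := (ht.eventually (gt_mem_nhds hpos)).exists
  refine ⟨n + r, fun x y hx hy1 hy2 => ?_⟩
  have h3 := ptw hh (x := x) (y := y) hr (by linarith) (by linarith)
  have h4 : ∫⁻ z in Sab (y - r) (y + r), {z : ℂ | |z.re - x| < r}.indicator (fun z => ‖h z‖ₑ) z ≤
      ∫⁻ z, {z : ℂ | (n : ℝ) < |z.re|}.indicator (fun z => ‖(Sm m).indicator h z‖ₑ) z := by
    rw [← lintegral_indicator (meas_Sab _ _)]
    refine lintegral_mono fun z => ?_
    by_cases hz : z ∈ Sab (y - r) (y + r)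
    · rw [indicator_of_mem hz]
      by_cases hz' : |z.re - x| < r
      · have hzm : z ∈ Sm m := ⟨by linarith [hz.1], by linarith [hz.2]⟩
        have hzn : (n : ℝ) < |z.re| := by
          have h5 : |x| ≤ |z.re| + |z.re - x| := by
            have h6 := abs_sub_abs_le_abs_sub x z.re
            rw [abs_sub_comm x z.re] at h6
            linarith
          linarith
        rw [indicator_of_mem (show z ∈ {z : ℂ | |z.re - x| < r} from hz'),
          indicator_of_mem (show z ∈ {z : ℂ | (n : ℝ) < |z.re|} from hzn), indicator_of_mem hzm]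
      · rw [indicator_of_notMem (show z ∉ {z : ℂ | |z.re - x| < r} from hz')]
        exact zero_le
    · rw [indicator_of_notMem hz]
      exact zero_le
  have h5 : ENNReal.ofReal (Real.pi * r ^ 2) * ‖h ((x : ℂ) + y * Complex.I)‖ₑ ≤
      ENNReal.ofReal (Real.pi * r ^ 2) * ENNReal.ofReal ε := (h3.trans h4).trans hn.le
  have h6 : ‖h ((x : ℂ) + y * Complex.I)‖ₑ ≤ ENNReal.ofReal ε := by
    refine (ENNReal.mul_le_mul_iff_right ?_ ENNReal.ofReal_ne_top).1 h5
    rw [Ne, ENNReal.ofReal_eq_zero, not_le]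
    positivity
  rw [← ofReal_norm, ENNReal.ofReal_le_ofReal_iff hε.le] at h6
  exact h6

private theorem vert {m : ℝ} {h : ℂ → ℂ} (hh : DifferentiableOn ℂ h (Sm m))
    (hi : IntegrableOn h (Sm m)) {y₁ y₂ : ℝ} (h1 : 0 < y₁) (h12 : y₁ < y₂) (h2 : y₂ < m)
    (s : ℝ) (hs : |s| = 1) :
    Tendsto (fun X : ℝ => ∫ y in y₁..y₂, h (((s * X : ℝ) : ℂ) + y * Complex.I)) atTop (𝓝 0) := by
  rw [Metric.tendsto_atTop]
  intro ε hε
  obtain ⟨X₀, hX₀⟩ := decay hh hi h1 h2 (ε := ε / (2 * (y₂ - y₁))) (by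
    have : 0 < y₂ - y₁ := by linarith
    positivity)
  refine ⟨X₀, fun X hX => ?_⟩
  rw [dist_zero_right]
  have hX' : X₀ ≤ |s * X| := by
    rw [abs_mul, hs, one_mul]
    exact hX.le.trans (le_abs_self X)
  have h3 : ‖∫ y in y₁..y₂, h (((s * X : ℝ) : ℂ) + y * Complex.I)‖ ≤
      ε / (2 * (y₂ - y₁)) * |y₂ - y₁| := by
    refine intervalIntegral.norm_integral_le_of_norm_le_const fun y hy => ?_
    rw [uIoc_of_le h12.le] at hy
    exact hX₀ _ y hX' hy.1.le hy.2
  have h4 : 0 < y₂ - y₁ := by linarith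
  rw [abs_of_pos h4] at h3
  have h5 : ε / (2 * (y₂ - y₁)) * (y₂ - y₁) = ε / 2 := by field_simp
  linarith

/-- the integral over horizontal lines is constant -/
private theorem const_J {m : ℝ} {h : ℂ → ℂ} (hh : DifferentiableOn ℂ h (Sm m))
    (hi : IntegrableOn h (Sm m)) {y₁ y₂ : ℝ} (h1 : 0 < y₁) (h12 : y₁ < y₂) (h2 : y₂ < m) :
    ∫ x : ℝ, h ((x : ℂ) + y₁ * Complex.I) = ∫ x : ℝ, h ((x : ℂ) + y₂ * Complex.I) := by
  have i1 := line_int hh hi h1 (h12.trans h2)
  have i2 := line_int hh hi (h1.trans h12) h2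
  have t1 := intervalIntegral_tendsto_integral i1 tendsto_neg_atTop_atBot tendsto_id
  have t2 := intervalIntegral_tendsto_integral i2 tendsto_neg_atTop_atBot tendsto_id
  have v1 := vert hh hi h1 h12 h2 1 abs_one
  have v2 := vert hh hi h1 h12 h2 (-1) (by rw [abs_neg, abs_one])
  have t3 := (((t1.sub t2).add (v1.const_smul Complex.I)).sub (v2.const_smul Complex.I))
  rw [smul_zero, add_zero, sub_zero] at t3
  have e : ∀ X : ℝ, ((∫ x in (-X)..(id X), h ((x : ℂ) + y₁ * Complex.I)) -
      (∫ x in (-X)..(id X), h ((x : ℂ) + y₂ * Complex.I)) +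
      Complex.I • ∫ y in y₁..y₂, h (((1 * X : ℝ) : ℂ) + y * Complex.I)) -
      Complex.I • ∫ y in y₁..y₂, h (((-1 * X : ℝ) : ℂ) + y * Complex.I) = 0 := by
    intro X
    have hd : DifferentiableOn ℂ h (uIcc (-X) X ×ℂ uIcc y₁ y₂) := by
      refine hh.mono fun z hz => ?_
      have h3 := hz.2
      rw [mem_preimage, uIcc_of_le h12.le] at h3
      exact ⟨by linarith [h3.1], by linarith [h3.2]⟩
    have h4 := Complex.integral_boundary_rect_eq_zero_of_differentiableOn h
      ⟨-X, y₁⟩ ⟨X, y₂⟩ hd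
    simp only [one_mul, neg_one_mul, id] at h4 ⊢
    exact h4
  have t4 := t3.congr e
  exact sub_eq_zero.1 (tendsto_nhds_unique t4 tendsto_const_nhds)

/-- Fubini on strips -/
private theorem strip {m : ℝ} {h : ℂ → ℂ} (hi : IntegrableOn h (Sm m)) {J : ℂ}
    (hJ : ∀ y : ℝ, 0 < y → y < m → ∫ x : ℝ, h ((x : ℂ) + y * Complex.I) = J)
    {a b : ℝ} (ha : 0 ≤ a) (hab : a ≤ b) (hb : b ≤ m) :
    ∫ w in Sab a b, h w = ((b - a : ℝ) : ℂ) * J := by
  have hsub : Sab a b ⊆ Sm m := fun z hz => ⟨ha.trans_lt hz.1, hz.2.trans_le hb⟩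
  have hia : IntegrableOn h (Sab a b) := hi.mono_set hsub
  have hmp := Complex.volume_preserving_equiv_real_prod.symm
  have hemb := Complex.measurableEquivRealProd.symm.measurableEmbedding
  have e1 := hmp.setIntegral_preimage_emb hemb h (Sab a b)
  have e2 : (Complex.measurableEquivRealProd.symm : ℝ × ℝ → ℂ) ⁻¹' (Sab a b) =
      univ ×ˢ Ioo a b := by
    ext p
    simp only [mem_preimage, mem_prod, mem_univ, true_and, mem_Ioo]
    rfl
  have e3 : ∀ p : ℝ × ℝ, Complex.measurableEquivRealProd.symm p = (p.1 : ℂ) + p.2 * Complex.I :=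
    fun p => (Complex.measurableEquivRealProd_symm_apply p).trans (Complex.mk_eq_add_mul_I _ _)
  rw [← e1, e2]
  have hint : Integrable (fun p : ℝ × ℝ => h (Complex.measurableEquivRealProd.symm p))
      ((volume : Measure ℝ).prod (volume.restrict (Ioo a b))) := by
    have h3 := (hmp.integrableOn_comp_preimage hemb (f := h) (s := Sab a b)).2 hia
    rw [e2] at h3
    unfold IntegrableOn at h3
    rw [Measure.volume_eq_prod, ← Measure.prod_restrict, Measure.restrict_univ] at h3
    exact h3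
  rw [Measure.volume_eq_prod, ← Measure.prod_restrict, Measure.restrict_univ,
    integral_prod_symm _ hint]
  have e4 : ∫ y in Ioo a b, ∫ x : ℝ, h (Complex.measurableEquivRealProd.symm (x, y)) =
      ∫ y in Ioo a b, J := by
    refine setIntegral_congr_fun measurableSet_Ioo fun y hy => ?_
    simp only [e3]
    exact hJ y (ha.trans_lt hy.1) (hy.2.trans_le hb)
  rw [e4, setIntegral_const, Measure.real, Real.volume_Ioo,
    ENNReal.toReal_ofReal (sub_nonneg.2 hab)]
  rfl

/-- HLI -/
theorem hHLI : Pool.Agent.Helper85.QT.StHLI := by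
  intro m h hm hh hi
  have hint : ∀ y : ℝ, 0 < y → y < m → Integrable (fun x : ℝ => h ((x : ℂ) + y * Complex.I)) :=
    fun y h1 h2 => line_int hh hi h1 h2
  have hJ : ∀ y : ℝ, 0 < y → y < m → ∫ x : ℝ, h ((x : ℂ) + y * Complex.I) =
      ∫ x : ℝ, h ((x : ℂ) + (m / 2 : ℝ) * Complex.I) := by
    intro y h1 h2
    rcases lt_trichotomy y (m / 2) with h3 | h3 | h3
    · exact const_J hh hi h1 h3 (by linarith)
    · rw [h3]
    · exact (const_J hh hi (by linarith) h3 h2).symm
  refine ⟨∫ x : ℝ, h ((x : ℂ) + (m / 2 : ℝ) * Complex.I), fun y h1 h2 => ⟨hint y h1 h2, hJ y h1 h2⟩,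
    fun a b ha hab hb => strip hi hJ ha hab hb, ?_, ?_⟩
  · have e1 := strip hi hJ le_rfl hm.le le_rfl
    have e2 := strip hi hJ (a := m / 3) (b := 2 * m / 3) (by positivity) (by linarith)
      (by linarith)
    have e3 : ∫ w in Sm m, h w = 3 * ∫ w in Sab (m / 3) (2 * m / 3), h w := by
      rw [e2]
      change ∫ w in Sab 0 m, h w = _
      rw [e1]
      push_cast
      ring
    rw [e3, norm_mul]
    have e4 : ‖(3 : ℂ)‖ = 3 := by simp
    rw [e4]
    exact mul_le_mul_of_nonneg_left (norm_integral_le_integral_norm _) (by norm_num)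
  · intro h6
    have h1 := line hh (y := m / 2) (r := 1) one_pos (by linarith) (by linarith)
    have hsub : Sab (m / 2 - 1) (m / 2 + 1) ⊆ Sab (m / 3) (2 * m / 3) := fun z hz =>
      ⟨by linarith [hz.1], by linarith [hz.2]⟩
    have hsub2 : Sab (m / 3) (2 * m / 3) ⊆ Sm m := fun z hz =>
      ⟨by linarith [hz.1], by linarith [hz.2]⟩
    have hi2 : IntegrableOn h (Sab (m / 3) (2 * m / 3)) := hi.mono_set hsub2
    have h2 : ∫⁻ z in Sab (m / 2 - 1) (m / 2 + 1), ‖h z‖ₑ ≤
        ∫⁻ z in Sab (m / 3) (2 * m / 3), ‖h z‖ₑ := lintegral_mono_set hsub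
    rw [integral_norm_eq_lintegral_enorm (hint (m / 2) (by linarith) (by linarith)).1,
      integral_norm_eq_lintegral_enorm hi2.1]
    refine ENNReal.toReal_mono hi2.2.ne ?_
    have h3 : ENNReal.ofReal (2 * 1) * ∫⁻ x : ℝ, ‖h ((x : ℂ) + (m / 2 : ℝ) * Complex.I)‖ₑ ≤
        ENNReal.ofReal (2 * 1) * ∫⁻ z in Sab (m / 3) (2 * m / 3), ‖h z‖ₑ := by
      refine le_trans ?_ (h1.trans (mul_le_mul_right h2 _))
      refine mul_le_mul_left (ENNReal.ofReal_le_ofReal ?_) _
      have := Real.pi_gt_three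
      nlinarith
    refine (ENNReal.mul_le_mul_iff_right ?_ ENNReal.ofReal_ne_top).1 h3
    rw [Ne, ENNReal.ofReal_eq_zero, not_le]
    norm_num

end Pool.Agent.Helper74.QT
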